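import Pool.Agent.H83.EQP.Targets

/-!
# Row PC6 of eqd_modules: lower bound for the Jacobian of `F^j` if there is no visit before `j`
-/

set_option autoImplicit false

namespace Pool.Agent.H51.EQP

open scoped BigOperators ComplexConjugate ContDiff ComplexOrder
open MeasureTheory Pool.Agent.H92.EQ Pool.Agent.H83.EQP

theorem pc6_ev_succ {N : ℕ} (F : Fin N → MvPolynomial (Fin N) ℂ) (t : ℕ) (x : Fin N → ℂ) :
    ev (iter F (t + 1)) x = ev F (ev (iter F t) x) := by
  funext i
  exact MvPolynomial.eval₂Hom_bind₁ (RingHom.id ℂ) x (iter F t) (F i)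

theorem pf_PC6 (hKL : T_KL) (hPA6 : T_PA6) (hD12 : T_D12) : T_PC6 := by
  intro p d m F h hd hF hNP
  obtain ⟨c, hc0, hc1, hc⟩ := hKL (p + 1) d F (Nat.succ_pos p) hd hF
  obtain ⟨C, hC1, hC⟩ := hNP.le
  have hC0 : 0 < C := by linarith
  refine ⟨C / c, ?_, ?_⟩
  · rw [le_div_iff₀ hc0]
    linarith
  intro j r hr hr1 x hx hFV
  have hx0 : x ≠ 0 := by
    rintro rfl
    unfold nrm nsq at hx
    simp at hx
  have hy0 : ∀ t, ev (iter F t) x ≠ 0 := fun t h0 =>
    hx0 ((hD12 (p + 1) d F (by omega) hF 0 t).1.nd x h0)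
  -- no visit
  have hvis : ∀ t ∈ Finset.range j, r / C ≤ nv (detP F) ((p + 1) * (d - 1)) (ev (iter F t) x) := by
    intro t ht
    rw [Finset.mem_range] at ht
    have h1 : 1 - Wt h m r (ev (iter F (t + 1)) x) ≠ 0 := by
      intro h0
      apply hFV
      unfold FV NV
      rw [Finset.prod_eq_zero (i := j - (t + 1)), zero_mul]
      · rw [Finset.mem_Ico]
        omega
      · have h2 : j - (j - (t + 1)) = t + 1 := by omega
        rw [h2]
        exact h0
    obtain ⟨-, -, -, h3, -⟩ := hPA6 (p + 1) m h (ev (iter F (t + 1)) x) r hNP.pos hr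
    have h4 : r < nv h m (ev (iter F (t + 1)) x) := by
      by_contra hle
      apply h1
      rw [h3 (not_lt.1 hle), sub_self]
    rw [pc6_ev_succ] at h4
    have h5 := hC (ev (iter F t) x) (hy0 t)
    rw [div_le_iff₀ hC0, mul_comm]
    exact le_trans h4.le h5
  have hprod : (r / C) ^ j ≤
      ∏ t ∈ Finset.range j, nv (detP F) ((p + 1) * (d - 1)) (ev (iter F t) x) := by
    calc (r / C) ^ j = ∏ _t ∈ Finset.range j, r / C := by
          rw [Finset.prod_const, Finset.card_range]
      _ ≤ _ := Finset.prod_le_prod (fun _ _ => by positivity) hvis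
  have hkl := hc j x hx0
  have h6 : (r / (C / c)) ^ j ≤ relJ (iter F j) x := by
    refine le_trans ?_ hkl
    have h7 : (r / (C / c)) ^ j = c ^ j * (r / C) ^ j := by
      rw [← mul_pow]
      congr 1
      field_simp
    rw [h7]
    exact mul_le_mul_of_nonneg_left hprod (by positivity)
  unfold relJ at h6
  rw [hx, one_pow, mul_one] at h6
  have hn0 : 0 ≤ nrm (ev (iter F j) x) := Real.sqrt_nonneg _
  rcases hn0.eq_or_lt with hz | hpos
  · rw [← hz, zero_pow (Nat.succ_ne_zero p), mul_zero]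
    exact norm_nonneg _
  · rw [le_div_iff₀ (by positivity)] at h6
    exact h6

end Pool.Agent.H51.EQP
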